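import Pool.Agent.MVD.Stmts

/-!
Row NT5 of squad MVD.
-/

namespace Pool.Agent.MVD.H2

open Pool.Agent.Helper14_MV Pool.Agent.Helper2_MV Pool.Agent.MVD

/-- words of length `n` in the letters `0, 3, 2` -/
def wd : ℕ → List (List ℕ)
  | 0 => [[]]
  | n + 1 => (wd n).flatMap (fun l => [0 :: l, 3 :: l, 2 :: l])

theorem mem_wd (l : List ℕ) (h : ∀ a ∈ l, a = 0 ∨ a = 3 ∨ a = 2) : l ∈ wd l.length := by
  induction l with
  | nil => simp [wd]
  | cons a l ih =>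
    have h1 := ih (fun b hb => h b (List.mem_cons_of_mem _ hb))
    rw [List.length_cons, wd, List.mem_flatMap]
    refine ⟨l, h1, ?_⟩
    rcases h a List.mem_cons_self with rfl | rfl | rfl <;> simp

theorem len_eq (l : List ℕ) (h : ∀ a ∈ l, a = 0 ∨ a = 3 ∨ a = 2) :
    l.length = l.count 0 + l.count 3 + l.count 2 := by
  induction l with
  | nil => simp
  | cons a l ih =>
    have h1 := ih (fun b hb => h b (List.mem_cons_of_mem _ hb))
    rw [List.length_cons, h1]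
    rcases h a List.mem_cons_self with rfl | rfl | rfl
    · simp; omega
    · simp; omega
    · simp; omega

def TA : List (List ℕ) := [[0, 3, 2, 0, 3], [3, 0, 2, 0, 3]]
def TC : List (List ℕ) := [[0, 3, 2, 0, 3], [3, 0, 2, 0, 3], [0, 3, 2, 3, 0], [3, 0, 2, 3, 0]]

def pB (w : List ℕ) : Bool :=
  (w.count 0 == 2) && (w.count 3 == 2) && (w.count 2 == 1) &&
    ((w.filter (fun i => i != 2)).getLast? == some 3)

def TB : List (List ℕ) := (wd 5).filter pB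

variable {β : FIC}

theorem iso_x (H : Iso3 β) {a : ℕ} {l : List ℕ} (h : RR β [a] l) : l = [a] := by
  have h1 := iso_ab H (Nat.succ_ne_self a).symm (h.append (RR.refl [a + 1]))
  have h2 : l ++ [a + 1] = [a] ++ [a + 1] := h1
  exact List.append_cancel_right h2

theorem iso_xx (H2 : Iso2 β) (H : Iso3 β) {a : ℕ} {l : List ℕ} (h : RR β [a, a] l) :
    l = [a, a] := by
  have h1 := h.sub (fun _ => [0])
  have e1 : [a, a].flatMap (fun _ => [0]) = [0, 0] := rfl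
  rw [e1] at h1
  have h2 := H2 _ h1
  have h3 : l.length = 2 := by
    have := congrArg List.length h2
    simpa using this
  have h4 : ∀ b ∈ l, b = a := by
    intro b hb
    by_contra hcon
    exact h.content H (c := b) (by simp [hcon]) hb
  obtain ⟨x, y, rfl⟩ := List.length_eq_two.1 h3
  rw [h4 x (by simp), h4 y (by simp)]

/-- letters and counts -/
theorem keepc (H2 : Iso2 β) (H : Iso3 β) {w w' : List ℕ} (h : RR β w w')
    (hw : ∀ a ∈ w, a = 0 ∨ a = 3 ∨ a = 2) (h0 : w.count 0 = 2) (h3 : w.count 3 = 2)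
    (h2 : w.count 2 = 1) :
    w' ∈ wd 5 ∧ w'.count 0 = 2 ∧ w'.count 3 = 2 ∧ w'.count 2 = 1 := by
  have hw' : ∀ a ∈ w', a = 0 ∨ a = 3 ∨ a = 2 := by
    intro a ha
    by_contra hcon
    exact h.content H (c := a) (fun hm => hcon (hw a hm)) ha
  have key : ∀ a k, w.count a = k → (∀ l, RR β (List.replicate k a) l → l = List.replicate k a) →
      w'.count a = k := by
    intro a k hk hi
    have h1 := h.filter (fun i => i == a)
    rw [List.filter_beq, List.filter_beq, hk] at h1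
    have h4 := hi _ h1
    have h5 := congrArg List.length h4
    simpa using h5
  have e0 := key 0 2 h0 (fun l hl => iso_xx H2 H hl)
  have e3 := key 3 2 h3 (fun l hl => iso_xx H2 H hl)
  have e2 := key 2 1 h2 (fun l hl => iso_x H hl)
  refine ⟨?_, e0, e3, e2⟩
  have h5 := mem_wd w' hw'
  rw [len_eq w' hw', e0, e3, e2] at h5
  exact h5

theorem keepC (H2 : Iso2 β) (H : Iso3 β) {w w' : List ℕ} (hw : w ∈ TC) (h : RR β w w') :
    w' ∈ TC := by
  have c1 : ∀ w ∈ TC, (∀ a ∈ w, a = 0 ∨ a = 3 ∨ a = 2) ∧ w.count 0 = 2 ∧ w.count 3 = 2 ∧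
      w.count 2 = 1 ∧ w.filter (fun i => i == 0 || i == 2) = [0, 2, 0] ∧
      w.filter (fun i => i == 3 || i == 2) = [3, 2, 3] := by
    decide +kernel
  obtain ⟨g1, g2, g3, g4, g5, g6⟩ := c1 w hw
  obtain ⟨k1, k2, k3, k4⟩ := keepc H2 H h g1 g2 g3 g4
  have h5 := h.filter (fun i => i == 0 || i == 2)
  rw [g5] at h5
  have h6 := h.filter (fun i => i == 3 || i == 2)
  rw [g6] at h6
  have h7 := iso_aba H (by decide) h5
  have h8 := iso_aba H (by decide) h6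
  have c2 : ∀ w ∈ wd 5, w.filter (fun i => i == 0 || i == 2) = [0, 2, 0] →
      w.filter (fun i => i == 3 || i == 2) = [3, 2, 3] → w ∈ TC := by
    decide +kernel
  exact c2 w' k1 h7 h8

/-- the arrangements of `x, x, y, y` -/
theorem arr1 (ctx : CtxStmt) (s1 : S1 β) (s2 : S2 β) {l : List ℕ}
    (h : l ∈ [[0, 0, 3, 3], [0, 3, 0, 3], [3, 0, 0, 3]]) : RR β [0, 0, 3, 3] l := by
  have a1 : RR β [0, 0, 3, 3] [0, 3, 0, 3] :=
    (ctx β).2.1 s2 [0] [3] 0 3 (by simp) (by simp)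
  have a2 : RR β [0, 3, 0, 3] [3, 0, 0, 3] :=
    (ctx β).1 s1 [] [0, 3] 0 3 (by simp) (by simp)
  simp only [List.mem_cons, List.not_mem_nil, or_false] at h
  rcases h with rfl | rfl | rfl
  · exact RR.refl _
  · exact a1
  · exact FIC.trans _ a1 a2

theorem arr2 (ctx : CtxStmt) (s1 : S1 β) (s2 : S2 β) {l : List ℕ}
    (h : l ∈ [[3, 3, 0, 0], [3, 0, 3, 0], [0, 3, 3, 0]]) : RR β [3, 3, 0, 0] l := by
  have a1 : RR β [3, 3, 0, 0] [3, 0, 3, 0] :=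
    (ctx β).2.1 s2 [3] [0] 3 0 (by simp) (by simp)
  have a2 : RR β [3, 0, 3, 0] [0, 3, 3, 0] :=
    (ctx β).1 s1 [] [3, 0] 3 0 (by simp) (by simp)
  simp only [List.mem_cons, List.not_mem_nil, or_false] at h
  rcases h with rfl | rfl | rfl
  · exact RR.refl _
  · exact a1
  · exact FIC.trans _ a1 a2

theorem keepB (ctx : CtxStmt) (H2 : Iso2 β) (H : Iso3 β) (s1 : S1 β) (s2 : S2 β) (hr : ¬ R0 β)
    {w w' : List ℕ} (hw : w ∈ TB) (h : RR β w w') : w' ∈ TB := by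
  have c1 : ∀ w ∈ TB, (∀ a ∈ w, a = 0 ∨ a = 3 ∨ a = 2) ∧ w.count 0 = 2 ∧ w.count 3 = 2 ∧
      w.count 2 = 1 ∧
      w.filter (fun i => i != 2) ∈ [[0, 0, 3, 3], [0, 3, 0, 3], [3, 0, 0, 3]] := by
    decide +kernel
  obtain ⟨g1, g2, g3, g4, g5⟩ := c1 w hw
  obtain ⟨k1, k2, k3, k4⟩ := keepc H2 H h g1 g2 g3 g4
  have c2 : ∀ w ∈ wd 5, w.count 0 = 2 → w.count 3 = 2 → w.count 2 = 1 →
      w ∈ TB ∨ w.filter (fun i => i != 2) ∈ [[3, 3, 0, 0], [3, 0, 3, 0], [0, 3, 3, 0]] := by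
    decide +kernel
  rcases c2 w' k1 k2 k3 k4 with h1 | h1
  · exact h1
  · exfalso
    apply hr
    have h2 := h.filter (fun i => i != 2)
    exact FIC.trans _ (arr1 ctx s1 s2 g5) (FIC.trans _ h2 (arr2 ctx s1 s2 h1).symm)

/-- `Rx` gives `R0` -/
theorem rx_r0 (ctx : CtxStmt) (s1 : S1 β) (s2 : S2 β) (h : Rx β) : R0 β := by
  have h1 := RR.filter (fun i => i != 2) h
  have h2 : RR β [0, 3, 0, 3] [0, 3, 3, 0] := h1
  exact FIC.trans _ (arr1 ctx s1 s2 (l := [0, 3, 0, 3]) (by simp))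
    (FIC.trans _ h2 (arr2 ctx s1 s2 (l := [0, 3, 3, 0]) (by simp)).symm)

theorem keepA (ctx : CtxStmt) (H2 : Iso2 β) (H : Iso3 β) (s1 : S1 β) (s2 : S2 β) (hr : ¬ R0 β)
    {w w' : List ℕ} (hw : w ∈ TA) (h : RR β w w') : w' ∈ TA := by
  have hC : w ∈ TC := by
    have c1 : ∀ w ∈ TA, w ∈ TC := by decide +kernel
    exact c1 w hw
  have h1 := keepC H2 H hC h
  have a1 : RR β [0, 3, 2, 0, 3] [3, 0, 2, 0, 3] :=
    (ctx β).1 s1 [] [2, 0, 3] 0 3 (by simp) (by simp)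
  have a2 : RR β [0, 3, 2, 3, 0] [3, 0, 2, 3, 0] :=
    (ctx β).1 s1 [] [2, 3, 0] 0 3 (by simp) (by simp)
  have b1 : RR β [0, 3, 2, 0, 3] w := by
    simp only [TA, List.mem_cons, List.not_mem_nil, or_false] at hw
    rcases hw with rfl | rfl
    · exact RR.refl _
    · exact a1
  simp only [TC, List.mem_cons, List.not_mem_nil, or_false] at h1
  rcases h1 with rfl | rfl | rfl | rfl
  · simp [TA]
  · simp [TA]
  · exact absurd (rx_r0 ctx s1 s2 (FIC.trans _ b1 h)) hr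
  · exact absurd (rx_r0 ctx s1 s2 (FIC.trans _ b1 (FIC.trans _ h a2.symm))) hr

/-- the identities of a pair keep a finite set -/
theorem kp (fin : FinStmt) {u v : List ℕ} {T : List (List ℕ)} (h1 : ∀ a ∈ v, a ∈ u)
    (h2 : ∀ a ∈ u, a ∈ v) (h3 : chkP u v T = true) (h4 : chkP v u T = true) :
    ∀ e : List ℕ × List ℕ, e = (u, v) → ∀ (φ : ℕ → List ℕ) (M N : List ℕ),
      (M ++ (e.1.flatMap φ ++ N)) ∈ T ↔ (M ++ (e.2.flatMap φ ++ N)) ∈ T := by
  rintro e rfl φ M N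
  exact ⟨fin u v T h1 h3 φ M N, fin v u T h2 h4 φ M N⟩

theorem nt5 (fin : FinStmt) (pen : PenStmt) (gen : GenStmt) (_dec : DecStmt) (_kp2 : Kp2Stmt)
    (ctx : CtxStmt) (_cty : CtyStmt) : Nt5Stmt := by
  intro β hm H2 H s1 s2
  by_contra hr
  obtain ⟨ρ, ρ1, ρ2, ρ3, ρ4⟩ := gen β (fun e => e = ([0, 0, 3, 3], [3, 3, 0, 0]))
  obtain ⟨σ, σ1, σ2, _, σ4⟩ := gen β (fun e => e = ([0, 2, 0], [2, 0, 0]))
  obtain ⟨τ, τ1, τ2, _, τ4⟩ := gen β (fun e => e = ([0, 3, 2, 0, 3], [0, 3, 2, 3, 0]))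
  have rxτ : Rx τ := τ2 _ rfl
  have s1τ : S1 τ := τ1 _ _ s1
  have s2τ : S2 τ := τ1 _ _ s2
  have r0τ : R0 τ := rx_r0 ctx s1τ s2τ rxτ
  have hρτ : ρ ≤ τ := by
    apply ρ3 τ τ1
    rintro e rfl
    exact r0τ
  -- `ρ` keeps `TA`
  have kA : ∀ w w', RR ρ w w' → w ∈ TA → w' ∈ TA :=
    ρ4 (fun w => w ∈ TA) (fun w w' h hw => keepA ctx H2 H s1 s2 hr hw h)
      (kp fin (by decide) (by decide) (by decide +kernel) (by decide +kernel))
  have kB : ∀ w w', RR σ w w' → w ∈ TB → w' ∈ TB :=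
    σ4 (fun w => w ∈ TB) (fun w w' h hw => keepB ctx H2 H s1 s2 hr hw h)
      (kp fin (by decide) (by decide) (by decide +kernel) (by decide +kernel))
  have kC : ∀ w w', RR τ w w' → w ∈ TC → w' ∈ TC :=
    τ4 (fun w => w ∈ TC) (fun w w' h hw => keepC H2 H hw h)
      (kp fin (by decide) (by decide) (by decide +kernel) (by decide +kernel))
  have cAB : ∀ w ∈ TA, w ∈ TB ∧ w ∈ TC := by decide +kernel
  have cBC : ∀ w ∈ TC, w ∈ TB → w ∈ TA := by decide +kernel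
  refine pen β hm ρ σ τ (fun w => w ∈ TA) (fun w => w ∈ TB) (fun w => w ∈ TC) ρ1 σ1 τ1 hρτ kA kB kC
    cAB (fun w hB hC => cBC w hC hB) [0, 3, 2, 0, 3] [0, 3, 2, 3, 0] (by decide) (by decide) rxτ ?_
  -- the chain
  have sg : RR σ [0, 2, 0] [2, 0, 0] := σ2 _ rfl
  have c1 : RR σ [0, 3, 2, 0, 3] [2, 0, 3, 0, 3] :=
    sg.sub (fun i => if i = 0 then [0, 3] else [i])
  have c2 : RR β [2, 0, 3, 0, 3] [2, 0, 0, 3, 3] :=
    (RR.refl [2]).append (arr1 ctx s1 s2 (l := [0, 3, 0, 3]) (by simp)).symm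
  have c3 : RR ρ [2, 0, 0, 3, 3] [2, 3, 3, 0, 0] :=
    (RR.refl [2]).append (ρ2 _ rfl)
  have c4 : RR β [2, 3, 3, 0, 0] [2, 3, 0, 3, 0] :=
    (RR.refl [2]).append (arr2 ctx s1 s2 (l := [3, 0, 3, 0]) (by simp))
  have c5 : RR σ [3, 0, 2, 3, 0] [2, 3, 0, 3, 0] :=
    sg.sub (fun i => if i = 0 then [3, 0] else [i])
  have c6 : RR β [3, 0, 2, 3, 0] [0, 3, 2, 3, 0] :=
    ((ctx β).1 s1 [] [2, 3, 0] 0 3 (by simp) (by simp)).symm
  have lσ : ∀ {a b}, RR σ a b → RR (FIC.sup ρ σ) a b := fun h => FIC.le_sup_right ρ σ _ _ h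
  have lρ : ∀ {a b}, RR ρ a b → RR (FIC.sup ρ σ) a b := fun h => FIC.le_sup_left ρ σ _ _ h
  have lβ : ∀ {a b}, RR β a b → RR (FIC.sup ρ σ) a b := fun h => lρ (ρ1 _ _ h)
  exact FIC.trans _ (lσ c1) (FIC.trans _ (lβ c2) (FIC.trans _ (lρ c3) (FIC.trans _ (lβ c4)
    (FIC.trans _ (lσ c5.symm) (lβ c6)))))

end Pool.Agent.MVD.H2
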